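import Mathlib
import Pool.Agent.Lib.helper23.PB

set_option autoImplicit false

namespace Pool.Agent.Results.MP_9e6edb_gt.Counter

open Set Filter Topology TopologicalSpace Pool.Agent.Lib.helper23.PB Pool.Agent.Lib.helper23.PB.Dat

instance : (cocountable : Filter ℝ).NeBot :=
  ⟨fun h => not_countable_univ (compl_empty ▸ mem_cocountable.1 (empty_mem_iff_bot.2 h))⟩

noncomputable def u : Ultrafilter ℝ := Ultrafilter.of cocountable

noncomputable def P : Dat ℝ Unit :=
  ⟨fun _ => univ, fun _ => u, fun _ => inferInstance, fun _ => univ_mem,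
    fun _ => Ultrafilter.of_le _, fun _ _ h => absurd rfl h⟩

lemma split {E : Set ℝ} (h : ¬ E.Countable) : ∃ R ⊆ E, ¬ R.Countable ∧ Rᶜ ∈ u := by
  haveI : Infinite E := Set.infinite_coe_iff.2 fun k => h k.countable
  obtain ⟨e⟩ : Nonempty (E × Bool ≃ E) := Cardinal.eq.1 (by
    simpa using Cardinal.mul_eq_left (Cardinal.aleph0_le_mk E) (Cardinal.natCast_le_aleph0.trans
      (Cardinal.aleph0_le_mk E) : ((2 : ℕ) : Cardinal) ≤ _) (by simp))
  have k (b) : range (fun x => (e (x, b) : ℝ)) ⊆ E ∧ ¬ (range fun x => (e (x, b) : ℝ)).Countable :=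
    ⟨range_subset_iff.2 fun x => (e _).2, fun c => h (countable_coe_iff.1
      (countable_univ_iff.1 (countable_of_injective_of_countable_image (fun x _ y _ a => by
        simpa using e.injective (Subtype.ext a)) (image_univ ▸ c))))⟩
  by_contra! a
  obtain ⟨_, ⟨x, rfl⟩, y, c⟩ := u.nonempty_of_mem (inter_mem
    (u.compl_notMem_iff.1 (a _ (k true).1 (k true).2))
    (u.compl_notMem_iff.1 (a _ (k false).1 (k false).2)))
  simpa using e.injective (Subtype.ext c)

theorem result : ∃ (X : Type) (_ : TopologicalSpace X) (B : Set (Set X)),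
    T2Space X ∧ (∀ U ∈ B, IsClopen U) ∧ IsTopologicalBasis B ∧
    (∀ C D : Set (Set X), C ⊆ B → C.Countable → D ⊆ B → (∀ U ∈ C, ∀ V ∈ D, Disjoint U V) →
      ∃ W ∈ B, (∀ U ∈ C, U ⊆ W) ∧ ∀ V ∈ D, Disjoint W V) ∧
    @CompactSpace X (generateFrom ((fun U => (closure U)ᶜ) '' B)) ∧
    (∀ s : ℕ → Set X, (∀ n, IsClopen (s n)) → IsClopen (closure (⋃ n, s n))) ∧
    ∃ x : X, ∀ K ∈ 𝓝 x, ¬ IsCompact K := by
  refine ⟨P.X, inferInstance, P.B, inferInstance, clopenB, basis, pretty, cocompact,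
    fun s hs => ?_, P.pt (.inr ()), fun K hK k => ?_⟩
  · have o : IsOpen (⋃ n, s n) := isOpen_iUnion fun n => (hs n).2
    have c := clopen (P := P) (U := P.pu ⁻¹' ⋃ n, s n) fun _ => u.mem_or_compl_mem _
    convert c
    refine (closure_minimal (tr o) c.1).antisymm fun x hx => mem_closure_iff.2 fun V v1 v2 => ?_
    obtain ⟨d, a⟩ := st_ne ((st_inter _ _).ge ⟨tr v1 v2, hx⟩)
    exact ⟨_, a⟩
  · obtain ⟨R, r1, r2, r3⟩ := split (E := P.pu ⁻¹' K) fun c =>
      @compl_notMem _ _ _ (P.ne ()) (tend (.inr ()) hK) (cc c)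
    haveI : Nonempty {C : Set ℝ // C.Countable} := ⟨⟨_, countable_empty⟩⟩
    obtain ⟨C, c⟩ := k.elim_directed_cover (fun C : {C : Set ℝ // C.Countable} => P.st (Rᶜ ∪ C))
      (fun _ => st_open _) (fun x _ => x.2.elim fun S a => mem_iUnion.2 ⟨⟨_, a.2.preimage
        Sum.inl_injective⟩, mem_of_superset a.1 fun j b => by
          cases j
          exacts [Or.inr b, u.1.sets_of_superset r3 subset_union_left]⟩)
      fun C E => ⟨⟨_, C.2.union E.2⟩, st_mono (union_subset_union_right _ subset_union_left),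
        st_mono (union_subset_union_right _ subset_union_right)⟩
    exact r2 (C.2.mono fun d a => (c (r1 a) : d ∈ Rᶜ ∪ C).resolve_left fun b => b a)

end Pool.Agent.Results.MP_9e6edb_gt.Counter
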